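import Mathlib

set_option autoImplicit false

/-!
# Symplectic elimination for a banded skew form
-/

namespace Pool.Agent.U147.ASC

variable {K M : Type*} [Field K] [AddCommGroup M] [Module K M]

/-- the new basis: `v k` is the pair of the vectors number `2 k` and `2 k + 1` -/
def vv (u : ℕ → M) (α β d : ℕ → K) : ℕ → M × M
  | 0 => (u 0, u 1)
  | k + 1 => (u (2 * k + 2) + (α (2 * k + 1) / d k) • (vv u α β d k).1 -
      (β (2 * k) / d k) • (vv u α β d k).2,
      u (2 * k + 3) + (β (2 * k + 1) / d k) • (vv u α β d k).1)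

section

variable (ω : M →ₗ[K] M →ₗ[K] K) (u : ℕ → M) (α β d : ℕ → K)

theorem vv_a (h3 : ∀ i j, i + 3 ≤ j → ω (u i) (u j) = 0) :
    ∀ k, (∀ j, 2 * k + 3 ≤ j → ω (vv u α β d k).1 (u j) = 0) ∧
      (∀ j, 2 * k + 4 ≤ j → ω (vv u α β d k).2 (u j) = 0)
  | 0 => ⟨fun j hj => h3 0 j (by omega), fun j hj => h3 1 j (by omega)⟩
  | k + 1 => by
    obtain ⟨i1, i2⟩ := vv_a h3 k
    refine ⟨fun j hj => ?_, fun j hj => ?_⟩
    · simp only [vv, map_add, map_sub, map_smul, LinearMap.add_apply, LinearMap.sub_apply,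
        LinearMap.smul_apply]
      rw [h3 _ _ (by omega), i1 j (by omega), i2 j (by omega)]
      simp
    · simp only [vv, map_add, map_smul, LinearMap.add_apply, LinearMap.smul_apply]
      rw [h3 _ _ (by omega), i1 j (by omega)]
      simp

theorem vv_b (h1 : ∀ i, ω (u i) (u (i + 1)) = α i) (h2 : ∀ i, ω (u i) (u (i + 2)) = β i)
    (h3 : ∀ i j, i + 3 ≤ j → ω (u i) (u j) = 0) :
    ∀ k, ω (vv u α β d k).1 (u (2 * k + 2)) = β (2 * k) ∧
      ω (vv u α β d k).2 (u (2 * k + 2)) = α (2 * k + 1) ∧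
      ω (vv u α β d k).2 (u (2 * k + 3)) = β (2 * k + 1)
  | 0 => ⟨h2 0, h1 1, h2 1⟩
  | k + 1 => by
    obtain ⟨i1, i2⟩ := vv_a ω u α β d h3 k
    have e1 : 2 * (k + 1) + 2 = 2 * k + 2 + 2 := by ring
    have e2 : 2 * (k + 1) + 3 = 2 * k + 3 + 2 := by ring
    have e3 : 2 * (k + 1) + 2 = 2 * k + 3 + 1 := by ring
    refine ⟨?_, ?_, ?_⟩
    · simp only [vv, map_add, map_sub, map_smul, LinearMap.add_apply, LinearMap.sub_apply,
        LinearMap.smul_apply]
      rw [i1 _ (by omega), i2 _ (by omega), e1, h2]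
      simp
      congr 1
    · simp only [vv, map_add, map_smul, LinearMap.add_apply, LinearMap.smul_apply]
      rw [i1 _ (by omega), e3, h1]
      simp
      congr 1
    · simp only [vv, map_add, map_smul, LinearMap.add_apply, LinearMap.smul_apply]
      rw [i1 _ (by omega), e2, h2]
      simp
      congr 1

theorem vv_cd (hs : ∀ x y, ω x y = - ω y x) (h0 : ∀ x, ω x x = 0)
    (h1 : ∀ i, ω (u i) (u (i + 1)) = α i) (h2 : ∀ i, ω (u i) (u (i + 2)) = β i)
    (h3 : ∀ i j, i + 3 ≤ j → ω (u i) (u j) = 0) (hd0 : d 0 = α 0)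
    (hd : ∀ k, d (k + 1) = α (2 * k + 2) - β (2 * k) * β (2 * k + 1) / d k)
    (hne : ∀ k, d k ≠ 0) :
    ∀ k, ω (vv u α β d k).1 (vv u α β d k).2 = d k ∧ ∀ l, l < k →
      ω (vv u α β d l).1 (vv u α β d k).1 = 0 ∧ ω (vv u α β d l).1 (vv u α β d k).2 = 0 ∧
      ω (vv u α β d l).2 (vv u α β d k).1 = 0 ∧ ω (vv u α β d l).2 (vv u α β d k).2 = 0
  | 0 => ⟨by rw [hd0]; exact h1 0, fun l hl => absurd hl (by omega)⟩
  | k + 1 => by
    obtain ⟨ic, id⟩ := vv_cd hs h0 h1 h2 h3 hd0 hd hne k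
    obtain ⟨b1, b2, b3⟩ := vv_b ω u α β d h1 h2 h3 k
    obtain ⟨a1, a2⟩ := vv_a ω u α β d h3 k
    have hk := hne k
    have key : ∀ l, l < k + 1 →
      ω (vv u α β d l).1 (vv u α β d (k + 1)).1 = 0 ∧
      ω (vv u α β d l).1 (vv u α β d (k + 1)).2 = 0 ∧
      ω (vv u α β d l).2 (vv u α β d (k + 1)).1 = 0 ∧
      ω (vv u α β d l).2 (vv u α β d (k + 1)).2 = 0 := by
      intro l hl
      rcases Nat.lt_succ_iff_lt_or_eq.1 hl with h | h
      · obtain ⟨j1, j2, j3, j4⟩ := id l h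
        obtain ⟨c1, c2⟩ := vv_a ω u α β d h3 l
        simp only [vv, map_add, map_sub, map_smul]
        rw [c1 _ (by omega), c1 _ (by omega), c2 _ (by omega), c2 _ (by omega), j1, j2, j3, j4]
        simp
      · subst h
        have hsw : ω (vv u α β d l).2 (vv u α β d l).1 = - d l := by rw [hs, ic]
        simp only [vv, map_add, map_sub, map_smul]
        rw [b1, b2, b3, a1 _ (by omega), h0, h0, ic, hsw]
        refine ⟨?_, ?_, ?_, ?_⟩ <;> simp only [smul_eq_mul] <;> field_simp <;> ring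
    refine ⟨?_, key⟩
    have hlast : ω (vv u α β d (k + 1)).1 (vv u α β d k).1 = 0 := by
      rw [hs, (key k (by omega)).1, neg_zero]
    have e : ω (vv u α β d (k + 1)).1 (vv u α β d (k + 1)).2 =
        ω (vv u α β d (k + 1)).1 (u (2 * k + 3)) +
          (β (2 * k + 1) / d k) * ω (vv u α β d (k + 1)).1 (vv u α β d k).1 := by
      have : (vv u α β d (k + 1)).2 = u (2 * k + 3) + (β (2 * k + 1) / d k) •
        (vv u α β d k).1 := rfl
      rw [this, map_add, map_smul, smul_eq_mul]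
    rw [e, hlast, mul_zero, add_zero, hd]
    simp only [vv, map_add, map_sub, map_smul, LinearMap.add_apply, LinearMap.sub_apply,
        LinearMap.smul_apply]
    rw [a1 _ (by omega), b3, h1 (2 * k + 2)]
    simp only [smul_eq_mul]
    field_simp
    ring

end

end Pool.Agent.U147.ASC
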