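import Mathlib

set_option autoImplicit false

/-!
# Pfaffians as sums over permutations: congruence and block diagonal matrices
-/

namespace Pool.Agent.U147.ASC

open Equiv Finset Matrix

variable {R : Type*} [CommRing R] {n : ℕ}

/-- the sum over all permutations in the definition of the Pfaffian, for a matrix with rows and
columns indexed by `Fin n × Fin 2` -/
def pfSum (A : Matrix (Fin n × Fin 2) (Fin n × Fin 2) R) : R :=
  ∑ σ : Perm (Fin n × Fin 2), ((Perm.sign σ : ℤ) : R) * ∏ k : Fin n, A (σ (k, 0)) (σ (k, 1))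

theorem prod_pair (f : Fin n × Fin 2 → R) : ∏ x, f x = ∏ k, (f (k, 0) * f (k, 1)) := by
  rw [Fintype.prod_prod_type]
  exact Finset.prod_congr rfl fun k _ => by simp [Fin.prod_univ_two]

theorem inner_eq (B : Matrix (Fin n × Fin 2) (Fin n × Fin 2) R)
    (p : Fin n × Fin 2 → Fin n × Fin 2) :
    ∑ σ : Perm (Fin n × Fin 2), ((Perm.sign σ : ℤ) : R) * ∏ x, B (σ x) (p x) =
      (B.submatrix id p).det := by
  rw [Matrix.det_apply']
  rfl

theorem pfSum_congr (A B : Matrix (Fin n × Fin 2) (Fin n × Fin 2) R) :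
    pfSum (B * A * Bᵀ) = B.det * pfSum A := by
  classical
  -- expand the product of the entries
  have h1 : ∀ x y, (B * A * Bᵀ) x y =
      ∑ z : (Fin n × Fin 2) × (Fin n × Fin 2), A z.1 z.2 * (B x z.1 * B y z.2) := by
    intro x y
    rw [Matrix.mul_apply]
    have h0 : ∀ j : Fin n × Fin 2, (B * A) x j * Bᵀ j y = ∑ i, A i j * (B x i * B y j) := by
      intro j
      rw [Matrix.mul_apply, Finset.sum_mul]
      refine Finset.sum_congr rfl fun i _ => ?_
      rw [Matrix.transpose_apply]
      ring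
    rw [Finset.sum_congr rfl fun j _ => h0 j, Finset.sum_comm]
    exact (Fintype.sum_prod_type' (fun i j => A i j * (B x i * B y j))).symm
  have h2 : pfSum (B * A * Bᵀ) = ∑ φ : Fin n → (Fin n × Fin 2) × (Fin n × Fin 2),
      ∑ σ : Perm (Fin n × Fin 2), ((Perm.sign σ : ℤ) : R) *
        ∏ k : Fin n, (A (φ k).1 (φ k).2 * (B (σ (k, 0)) (φ k).1 * B (σ (k, 1)) (φ k).2)) := by
    unfold pfSum
    rw [Finset.sum_comm]
    refine Finset.sum_congr rfl fun σ _ => ?_
    rw [← Finset.mul_sum]
    congr 1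
    simp_rw [h1]
    rw [Finset.prod_univ_sum, Fintype.piFinset_univ]
  -- functions on pairs
  let e : (Fin n × Fin 2 → Fin n × Fin 2) ≃ (Fin n → (Fin n × Fin 2) × (Fin n × Fin 2)) :=
    { toFun := fun p k => (p (k, 0), p (k, 1))
      invFun := fun φ x => if x.2 = 0 then (φ x.1).1 else (φ x.1).2
      left_inv := by
        intro p
        funext x
        obtain ⟨k, b⟩ := x
        fin_cases b <;> simp
      right_inv := by
        intro φ
        funext k
        simp }
  have h3 : pfSum (B * A * Bᵀ) = ∑ p : Fin n × Fin 2 → Fin n × Fin 2,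
      (∏ k, A (p (k, 0)) (p (k, 1))) * (B.submatrix id p).det := by
    rw [h2, ← Equiv.sum_comp e]
    refine Finset.sum_congr rfl fun p _ => ?_
    rw [← inner_eq, Finset.mul_sum]
    refine Finset.sum_congr rfl fun σ _ => ?_
    rw [prod_pair (fun x => B (σ x) (p x)), Finset.prod_mul_distrib]
    simp only [e, Equiv.coe_fn_mk]
    ring
  have h4 : pfSum (B * A * Bᵀ) = ∑ τ : Perm (Fin n × Fin 2),
      (∏ k, A (τ (k, 0)) (τ (k, 1))) * (((Perm.sign τ : ℤ) : R) * B.det) := by
    rw [h3]
    have h5 : ∀ p : Fin n × Fin 2 → Fin n × Fin 2, ¬ Function.Bijective p →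
        (∏ k, A (p (k, 0)) (p (k, 1))) * (B.submatrix id p).det = 0 := by
      intro p hp
      have h6 : ∃ i j, p i = p j ∧ i ≠ j := by
        by_contra hcon
        push Not at hcon
        exact hp (Finite.injective_iff_bijective.1 fun i j hij => hcon i j hij)
      obtain ⟨i, j, hij, hne⟩ := h6
      rw [Matrix.det_zero_of_column_eq hne fun k => by simp [hij], mul_zero]
    rw [← Finset.sum_subset (Finset.filter_subset (fun p => Function.Bijective p) Finset.univ)
      (fun p _ hp => h5 p (by simpa using hp))]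
    refine Finset.sum_bij (fun p h => Equiv.ofBijective p (Finset.mem_filter.1 h).2)
      (fun _ _ => Finset.mem_univ _) (fun _ _ _ _ h => by injection h)
      (fun b _ => ⟨b, Finset.mem_filter.2 ⟨Finset.mem_univ _, b.bijective⟩,
        Equiv.coe_fn_injective rfl⟩) ?_
    intro p hp
    congr 1
    have := Matrix.det_permute' (Equiv.ofBijective p (Finset.mem_filter.1 hp).2) B
    exact this
  rw [h4]
  unfold pfSum
  rw [Finset.mul_sum]
  exact Finset.sum_congr rfl fun τ _ => by ring

/-- `0 1 ↦ 1`, `1 0 ↦ -1`, `0 0, 1 1 ↦ 0` -/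
def jj (b c : Fin 2) : ℤ := if b = 0 ∧ c = 1 then 1 else if b = 1 ∧ c = 0 then -1 else 0

theorem jj_perm (ε : Perm (Fin 2)) : jj (ε 0) (ε 1) = (Perm.sign ε : ℤ) := by
  revert ε
  decide

/-- the permutation of `Fin n × Fin 2` given by a permutation of `Fin n` and permutations of
`Fin 2` -/
def bl (τ : Perm (Fin n)) (ε : Fin n → Perm (Fin 2)) : Perm (Fin n × Fin 2) :=
  (Equiv.prodCongrLeft (fun _ : Fin 2 => τ) : Perm (Fin n × Fin 2)) * Equiv.prodCongrRight ε

theorem bl_apply (τ : Perm (Fin n)) (ε : Fin n → Perm (Fin 2)) (k : Fin n) (b : Fin 2) :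
    bl τ ε (k, b) = (τ k, ε k b) := rfl

theorem sign_bl (τ : Perm (Fin n)) (ε : Fin n → Perm (Fin 2)) :
    ((Perm.sign (bl τ ε) : ℤ)) = ∏ k, (Perm.sign (ε k) : ℤ) := by
  unfold bl
  rw [Perm.sign_mul, Perm.sign_prodCongrLeft, Perm.sign_prodCongrRight]
  simp only [Finset.prod_const, Finset.card_univ, Fintype.card_fin]
  rw [Int.units_sq, one_mul]
  push_cast
  rfl

theorem pfSum_block (d : Fin n → R) (A : Matrix (Fin n × Fin 2) (Fin n × Fin 2) R)
    (hA : ∀ i j b c, A (i, b) (j, c) = if i = j then d i * (jj b c : R) else 0) :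
    pfSum A = (n.factorial * 2 ^ n : ℕ) * ∏ i, d i := by
  classical
  unfold pfSum
  have h1 : ∀ σ : Perm (Fin n × Fin 2), (∀ τ ε, bl τ ε ≠ σ) →
      ((Perm.sign σ : ℤ) : R) * ∏ k : Fin n, A (σ (k, 0)) (σ (k, 1)) = 0 := by
    intro σ hσ
    by_cases hall : ∀ k, (σ (k, 0)).1 = (σ (k, 1)).1
    · exfalso
      -- the permutation of the blocks
      have hinj : Function.Injective (fun k : Fin n => (σ (k, 0)).1) := by
        intro k l hkl
        simp only at hkl
        have h2 : ∀ b : Fin 2, (σ (k, b)).1 = (σ (k, 0)).1 := by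
          intro b
          fin_cases b
          · rfl
          · exact (hall k).symm
        have h3 : ∀ b : Fin 2, (σ (l, b)).1 = (σ (k, 0)).1 := by
          intro b
          fin_cases b
          · exact hkl.symm
          · exact (hall l).symm.trans hkl.symm
        -- `σ (k, ·)` is injective into the block, so it is onto
        have h4 : Function.Surjective (fun b : Fin 2 => (σ (k, b)).2) := by
          apply Finite.surjective_of_injective
          intro b c hbc
          have : σ (k, b) = σ (k, c) := Prod.ext ((h2 b).trans (h2 c).symm) hbc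
          have := σ.injective this
          simpa using this
        obtain ⟨b, hb⟩ := h4 (σ (l, 0)).2
        have : σ (k, b) = σ (l, 0) := Prod.ext ((h2 b).trans (h3 0).symm) hb
        have := σ.injective this
        simpa using (congrArg Prod.fst this)
      have hbij : Function.Bijective (fun k : Fin n => (σ (k, 0)).1) :=
        Finite.injective_iff_bijective.1 hinj
      have h2 : ∀ (k : Fin n) (b : Fin 2), (σ (k, b)).1 = (σ (k, 0)).1 := by
        intro k b
        fin_cases b
        · rfl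
        · exact (hall k).symm
      have hbij2 : ∀ k : Fin n, Function.Bijective (fun b : Fin 2 => (σ (k, b)).2) := by
        intro k
        apply Finite.injective_iff_bijective.1
        intro b c hbc
        have : σ (k, b) = σ (k, c) := Prod.ext ((h2 k b).trans (h2 k c).symm) hbc
        have := σ.injective this
        simpa using this
      refine hσ (Equiv.ofBijective _ hbij) (fun k => Equiv.ofBijective _ (hbij2 k)) ?_
      ext ⟨k, b⟩ : 1
      rw [bl_apply]
      exact Prod.ext (h2 k b).symm rfl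
    · push Not at hall
      obtain ⟨k, hk⟩ := hall
      have : A (σ (k, 0)) (σ (k, 1)) = 0 := by
        have := hA (σ (k, 0)).1 (σ (k, 1)).1 (σ (k, 0)).2 (σ (k, 1)).2
        rw [if_neg hk] at this
        exact this
      rw [Finset.prod_eq_zero (Finset.mem_univ k) this, mul_zero]
  have h2 : ∑ σ : Perm (Fin n × Fin 2), ((Perm.sign σ : ℤ) : R) *
      ∏ k : Fin n, A (σ (k, 0)) (σ (k, 1)) =
      ∑ z : Perm (Fin n) × (Fin n → Perm (Fin 2)), ((Perm.sign (bl z.1 z.2) : ℤ) : R) *
        ∏ k : Fin n, A (bl z.1 z.2 (k, 0)) (bl z.1 z.2 (k, 1)) := by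
    have hinj : Function.Injective
        (fun z : Perm (Fin n) × (Fin n → Perm (Fin 2)) => bl z.1 z.2) := by
      rintro ⟨τ, ε⟩ ⟨τ', ε'⟩ h
      simp only at h
      have h3 : ∀ k b, (τ k, ε k b) = (τ' k, ε' k b) := by
        intro k b
        rw [← bl_apply, ← bl_apply, h]
      refine Prod.ext ?_ ?_
      · ext k : 1
        exact congrArg Prod.fst (h3 k 0)
      · funext k
        ext b : 1
        exact congrArg Prod.snd (h3 k b)
    rw [← Finset.sum_image (f := fun σ : Perm (Fin n × Fin 2) => ((Perm.sign σ : ℤ) : R) *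
      ∏ k : Fin n, A (σ (k, 0)) (σ (k, 1))) (s := Finset.univ)
      (g := fun z : Perm (Fin n) × (Fin n → Perm (Fin 2)) => bl z.1 z.2)
      (fun x _ y _ h => hinj h)]
    symm
    refine Finset.sum_subset (Finset.subset_univ _) fun σ _ hσ => ?_
    apply h1
    intro τ ε h
    exact hσ (Finset.mem_image.2 ⟨(τ, ε), Finset.mem_univ _, h⟩)
  rw [h2]
  have h3 : ∀ z : Perm (Fin n) × (Fin n → Perm (Fin 2)),
      ((Perm.sign (bl z.1 z.2) : ℤ) : R) *
        ∏ k : Fin n, A (bl z.1 z.2 (k, 0)) (bl z.1 z.2 (k, 1)) = ∏ i, d i := by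
    rintro ⟨τ, ε⟩
    have h4 : ∏ k : Fin n, A (bl τ ε (k, 0)) (bl τ ε (k, 1)) =
        (∏ k, d (τ k)) * ((∏ k, (Perm.sign (ε k) : ℤ) : ℤ) : R) := by
      rw [Int.cast_prod, ← Finset.prod_mul_distrib]
      refine Finset.prod_congr rfl fun k _ => ?_
      rw [bl_apply, bl_apply, hA, if_pos rfl, jj_perm]
    simp only
    rw [h4, sign_bl, Equiv.prod_comp τ d]
    have h5 : ((∏ k, (Perm.sign (ε k) : ℤ) : ℤ) : R) * ((∏ k, (Perm.sign (ε k) : ℤ) : ℤ) : R)
        = 1 := by
      rw [← Int.cast_mul, ← Finset.prod_mul_distrib]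
      have : ∀ k : Fin n, (Perm.sign (ε k) : ℤ) * (Perm.sign (ε k) : ℤ) = 1 := by
        intro k
        rcases Int.units_eq_one_or (Perm.sign (ε k)) with h | h <;> simp [h]
      simp [this]
    calc _ = (∏ i, d i) * (((∏ k, (Perm.sign (ε k) : ℤ) : ℤ) : R) *
        ((∏ k, (Perm.sign (ε k) : ℤ) : ℤ) : R)) := by ring
      _ = _ := by rw [h5, mul_one]
  rw [Finset.sum_congr rfl (fun z _ => h3 z), Finset.sum_const, Finset.card_univ,
    Fintype.card_prod, Fintype.card_perm, Fintype.card_pi]
  simp only [Fintype.card_perm, Fintype.card_fin, Finset.prod_const, Finset.card_univ]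
  rw [nsmul_eq_mul]
  norm_num

end Pool.Agent.U147.ASC
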