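import Mathlib

set_option autoImplicit false

/-!
# Gaussian binomials, Rogers–Szegő numbers
-/

namespace Pool.Agent.U147.ASC

open Finset

section ring

variable {R : Type*} [CommRing R]

/-- Gaussian binomial coefficients, by the `q`-Pascal rule. -/
def qb (x : R) : ℕ → ℕ → R
  | _, 0 => 1
  | 0, _ + 1 => 0
  | m + 1, k + 1 => qb x m k + x ^ (k + 1) * qb x m (k + 1)

/-- `(x; x)_m = (1 - x) (1 - x ^ 2) ... (1 - x ^ m)` -/
def poch (x : R) (m : ℕ) : R := ∏ i ∈ range m, (1 - x ^ (i + 1))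

theorem qb_zero (x : R) (m : ℕ) : qb x m 0 = 1 := by cases m <;> rfl

theorem qb_zero_succ (x : R) (k : ℕ) : qb x 0 (k + 1) = 0 := rfl

theorem qb_succ (x : R) (m k : ℕ) :
    qb x (m + 1) (k + 1) = qb x m k + x ^ (k + 1) * qb x m (k + 1) := rfl

theorem qb_gt (x : R) : ∀ m k, m < k → qb x m k = 0
  | 0, 0, h => absurd h (lt_irrefl _)
  | 0, k + 1, _ => rfl
  | m + 1, 0, h => absurd h (by omega)
  | m + 1, k + 1, h => by
    rw [qb_succ, qb_gt x m k (by omega), qb_gt x m (k + 1) (by omega)]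
    ring

theorem qb_self (x : R) (m : ℕ) : qb x m m = 1 := by
  induction m with
  | zero => rfl
  | succ m ih => rw [qb_succ, ih, qb_gt x m (m + 1) (by omega)]; ring

theorem qb_A (x : R) (m : ℕ) : ∀ k, (1 - x ^ (k + 1)) * qb x (m + 1) (k + 1) =
    (1 - x ^ (m + 1)) * qb x m k := by
  induction m with
  | zero =>
    intro k
    rcases k with _ | k
    · rw [qb_succ, qb_zero, qb_zero_succ]; ring
    · rw [qb_succ, qb_zero_succ, qb_zero_succ]; ring
  | succ m ih =>
    have hC : ∀ k, (x ^ k - x ^ (m + 1)) * qb x (m + 1) k =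
        x ^ k * (1 - x ^ (m + 1)) * qb x m k := by
      intro k
      rcases k with _ | k
      · rw [qb_zero, qb_zero]; ring
      · have h1 := ih k
        have h2 := qb_succ x m k
        linear_combination (1 - x ^ (m + 1)) * h2 - h1
    intro k
    rw [qb_succ]
    linear_combination x ^ (k + 1) * ih k - x * hC k

theorem qb_C (x : R) (m k : ℕ) : (x ^ k - x ^ (m + 1)) * qb x (m + 1) k =
    x ^ k * (1 - x ^ (m + 1)) * qb x m k := by
  rcases k with _ | k
  · rw [qb_zero, qb_zero]; ring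
  · have h1 := qb_A x m k
    have h2 := qb_succ x m k
    linear_combination (1 - x ^ (m + 1)) * h2 - h1

theorem poch_succ (x : R) (m : ℕ) : poch x (m + 1) = poch x m * (1 - x ^ (m + 1)) := by
  unfold poch
  rw [prod_range_succ]

theorem poch_zero (x : R) : poch x 0 = 1 := by simp [poch]

/-- The Gaussian binomial coefficients are the usual quotients. -/
theorem qb_mul_poch (x : R) : ∀ k l : ℕ, qb x (k + l) k * (poch x k * poch x l) = poch x (k + l)
  | 0, l => by simp [qb_zero, poch_zero]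
  | k + 1, l => by
    have h1 := qb_A x (k + l) k
    have h2 := qb_mul_poch x k l
    have h3 : k + 1 + l = k + l + 1 := by omega
    rw [h3, poch_succ, poch_succ]
    linear_combination (poch x k * poch x l) * h1 + (1 - x ^ (k + l + 1)) * h2

variable (a q : R)

/-- the Rogers–Szegő numbers `∑ [r, j] a ^ j` -/
def G (r : ℕ) : R := ∑ j ∈ range (r + 1), qb q r j * a ^ j

theorem G_zero : G a q 0 = 1 := by simp [G, qb_zero]

theorem G_one : G a q 1 = 1 + a := by
  simp [G, sum_range_succ, qb_zero, qb_self]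

theorem G_rec (r : ℕ) : G a q (r + 2) =
    (1 + a) * G a q (r + 1) - a * (1 - q ^ (r + 1)) * G a q r := by
  have h1 : G a q (r + 2) = ∑ j ∈ range (r + 2), qb q (r + 2) (j + 1) * a ^ (j + 1) + 1 := by
    unfold G
    rw [sum_range_succ', qb_zero]
    ring
  have h2 : ∀ j, qb q (r + 2) (j + 1) * a ^ (j + 1) = a * (qb q (r + 1) j * a ^ j) +
      qb q (r + 1) (j + 1) * a ^ (j + 1) - a * (1 - q ^ (r + 1)) * (qb q r j * a ^ j) := by
    intro j
    have h3 := qb_A q r j
    have h4 := qb_succ q (r + 1) j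
    rw [h4]
    linear_combination (- a ^ (j + 1)) * h3
  rw [h1, sum_congr rfl fun j _ => h2 j, sum_sub_distrib, sum_add_distrib, ← mul_sum, ← mul_sum]
  have h5 : ∑ j ∈ range (r + 2), qb q (r + 1) j * a ^ j = G a q (r + 1) := rfl
  have h6 : ∑ j ∈ range (r + 2), qb q r j * a ^ j = G a q r := by
    rw [sum_range_succ, qb_gt q r (r + 1) (by omega)]
    unfold G
    ring
  have h7 : ∑ j ∈ range (r + 2), qb q (r + 1) (j + 1) * a ^ (j + 1) + 1 = G a q (r + 1) := by
    rw [sum_range_succ, qb_gt q (r + 1) (r + 2) (by omega)]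
    unfold G
    rw [sum_range_succ' _ (r + 1), qb_zero]
    ring
  rw [h5, h6]
  linear_combination h7

/-- the sum in the second identity, up to a power of `p` (here `p = q ^ 2`) -/
def fs (p : R) (n : ℕ) : R :=
  ∑ k ∈ range (n + 1), p ^ (k.choose 2 + (n - k).choose 2) * qb p n k * a ^ k

/-- the recursively defined value of the sum -/
def fr (p : R) : ℕ → R
  | 0 => 1
  | 1 => 1 + a
  | n + 2 => (1 + a) * p ^ (n + 1) * fr p (n + 1) + a * p ^ n * (1 - p ^ (n + 1)) * fr p n

end ring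

section dom

variable {R : Type*} [CommRing R] [IsDomain R]

theorem qb_B {x : R} (hx : x ≠ 0) (k l : ℕ) : (1 - x ^ (l + 1)) * qb x (k + l + 1) k =
    (1 - x ^ (k + l + 1)) * qb x (k + l) k := by
  have h := qb_C x (k + l) k
  have h1 : x ^ (k + l + 1) = x ^ k * x ^ (l + 1) := by rw [← pow_add]; rfl
  have h2 : x ^ k ≠ 0 := pow_ne_zero _ hx
  apply mul_left_cancel₀ h2
  linear_combination h + qb x (k + l + 1) k * h1

theorem ch_two (k : ℕ) : (k + 1).choose 2 = k.choose 2 + k := by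
  have h := Nat.choose_succ_succ' k 1
  rw [Nat.choose_one_right] at h
  have h2 : k.choose (1 + 1) = k.choose 2 := rfl
  have h3 : (k + 1).choose (1 + 1) = (k + 1).choose 2 := rfl
  omega

theorem fs_rec (a : R) {p : R} (hp : p ≠ 0) (n : ℕ) : fs a p (n + 2) =
    (1 + a) * p ^ (n + 1) * fs a p (n + 1) + a * p ^ n * (1 - p ^ (n + 1)) * fs a p n := by
  -- terms
  set t : ℕ → ℕ → R := fun n k => p ^ (k.choose 2 + (n - k).choose 2) * qb p n k with ht
  have h0 : t (n + 2) 0 = p ^ (n + 1) * t (n + 1) 0 := by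
    simp only [ht, qb_zero, Nat.sub_zero]
    rw [ch_two (n + 1)]
    simp only [Nat.choose_zero_succ]
    ring
  have h1 : ∀ k, k ≤ n → t (n + 2) (k + 1) = p ^ (n + 1) * (t (n + 1) (k + 1) + t (n + 1) k) +
      p ^ n * (1 - p ^ (n + 1)) * t n k := by
    intro k hk
    obtain ⟨l, rfl⟩ := Nat.exists_eq_add_of_le hk
    simp only [ht]
    have e1 : k + l + 2 - (k + 1) = l + 1 := by omega
    have e2 : k + l + 1 - (k + 1) = l := by omega
    have e3 : k + l + 1 - k = l + 1 := by omega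
    have e4 : k + l - k = l := by omega
    rw [e1, e2, e3, e4, ch_two, ch_two]
    have hB := qb_B hp k l
    have hP := qb_succ p (k + l + 1) k
    have e5 : k + l + 1 + 1 = k + l + 2 := rfl
    rw [e5] at hP
    rw [hP]
    simp only [pow_add, pow_one] at hB ⊢
    linear_combination (- (p ^ k.choose 2 * p ^ l.choose 2 * p ^ k * p ^ l)) * (-hB)
  have h2 : t (n + 2) (n + 2) = p ^ (n + 1) * t (n + 1) (n + 1) := by
    simp only [ht, qb_self, Nat.sub_self]
    rw [ch_two (n + 1)]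
    ring
  have h3 : fs a p (n + 2) = ∑ k ∈ range (n + 1), t (n + 2) (k + 1) * a ^ (k + 1) +
      t (n + 2) (n + 2) * a ^ (n + 2) + t (n + 2) 0 := by
    unfold fs
    rw [sum_range_succ', sum_range_succ]
    simp only [ht]
    ring
  rw [h3, sum_congr rfl fun k hk => by rw [h1 k (by simpa [Nat.lt_succ_iff] using hk)]]
  have h4 : ∑ k ∈ range (n + 1), (p ^ (n + 1) * (t (n + 1) (k + 1) + t (n + 1) k) +
      p ^ n * (1 - p ^ (n + 1)) * t n k) * a ^ (k + 1) =
      p ^ (n + 1) * ∑ k ∈ range (n + 1), t (n + 1) (k + 1) * a ^ (k + 1) +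
      a * p ^ (n + 1) * ∑ k ∈ range (n + 1), t (n + 1) k * a ^ k +
      a * p ^ n * (1 - p ^ (n + 1)) * ∑ k ∈ range (n + 1), t n k * a ^ k := by
    rw [mul_sum, mul_sum, mul_sum, ← sum_add_distrib, ← sum_add_distrib]
    exact sum_congr rfl fun k _ => by ring
  have h5 : fs a p (n + 1) = ∑ k ∈ range (n + 1), t (n + 1) (k + 1) * a ^ (k + 1) +
      t (n + 1) 0 := by
    unfold fs
    rw [sum_range_succ']
    simp only [ht]
    ring
  have h6 : fs a p (n + 1) = ∑ k ∈ range (n + 1), t (n + 1) k * a ^ k +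
      t (n + 1) (n + 1) * a ^ (n + 1) := by
    unfold fs
    rw [sum_range_succ]
  have h7 : fs a p n = ∑ k ∈ range (n + 1), t n k * a ^ k := rfl
  rw [h4, h0, h2]
  linear_combination (- p ^ (n + 1)) * h5 - a * p ^ (n + 1) * h6 -
    a * p ^ n * (1 - p ^ (n + 1)) * h7

theorem fs_eq_fr (a : R) {p : R} (hp : p ≠ 0) : ∀ n, fs a p n = fr a p n
  | 0 => by simp [fs, fr, qb_zero]
  | 1 => by simp [fs, fr, sum_range_succ, qb_zero, qb_self]
  | n + 2 => by rw [fs_rec a hp, fs_eq_fr a hp (n + 1), fs_eq_fr a hp n]; rfl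

end dom

theorem fr_map {R S : Type*} [CommRing R] [CommRing S] (φ : R →+* S) (a p : R) :
    ∀ n, φ (fr a p n) = fr (φ a) (φ p) n
  | 0 => by simp [fr]
  | 1 => by simp [fr]
  | n + 2 => by simp [fr, fr_map φ a p (n + 1), fr_map φ a p n]

theorem fr_pos : ∀ n, 0 < fr (1 : ℚ) (1 / 4) n
  | 0 => by simp [fr]
  | 1 => by norm_num [fr]
  | n + 2 => by
    have h1 := fr_pos (n + 1)
    have h2 := fr_pos n
    have h3 : (1 / 4 : ℚ) ^ (n + 1) ≤ 1 := pow_le_one₀ (by norm_num) (by norm_num)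
    have h4 : (0 : ℚ) < (1 / 4) ^ (n + 1) := by positivity
    have h5 : (0 : ℚ) < (1 / 4) ^ n := by positivity
    show 0 < (1 + 1) * (1 / 4 : ℚ) ^ (n + 1) * fr 1 (1 / 4) (n + 1) +
      1 * (1 / 4) ^ n * (1 - (1 / 4) ^ (n + 1)) * fr 1 (1 / 4) n
    have h6 : 0 < (1 + 1) * (1 / 4 : ℚ) ^ (n + 1) * fr 1 (1 / 4) (n + 1) := by positivity
    have h7 : 0 ≤ 1 * (1 / 4 : ℚ) ^ n * (1 - (1 / 4) ^ (n + 1)) * fr 1 (1 / 4) n := by
      apply mul_nonneg _ h2.le
      apply mul_nonneg (by positivity)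
      linarith
    linarith

end Pool.Agent.U147.ASC
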