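import Mathlib
import Pool.Agent.U147.ASC.Qb

set_option autoImplicit false

/-!
# Al-Salam–Carlitz polynomials
-/

namespace Pool.Agent.U147.ASC

open Polynomial

section ring

variable {R : Type*} [CommRing R] (a q : R)

/-- the moment functional -/
noncomputable def L : R[X] →ₗ[R] R :=
  Polynomial.lsum (fun r => LinearMap.toSpanSingleton R R (G a q r))

/-- `(1 - q)` times the `q`-derivative -/
noncomputable def D : R[X] →ₗ[R] R[X] :=
  Polynomial.lsum (fun i => (1 - q ^ i) • (monomial (i - 1) : R →ₗ[R] R[X]))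

theorem L_mon (n : ℕ) (c : R) : L a q (monomial n c) = c * G a q n := by
  unfold L
  rw [Polynomial.lsum_apply, Polynomial.sum_monomial_index _ _ (by simp)]
  simp [LinearMap.toSpanSingleton_apply]

theorem D_mon (n : ℕ) (c : R) : D q (monomial n c) = monomial (n - 1) ((1 - q ^ n) * c) := by
  unfold D
  rw [Polynomial.lsum_apply, Polynomial.sum_monomial_index _ _ (by simp)]
  simp [smul_monomial]

theorem D_X_mul (f : R[X]) : D q (X * f) = C (1 - q) * f + C q * (X * D q f) := by
  induction f using Polynomial.induction_on' with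
  | add f g hf hg =>
    rw [mul_add, map_add, hf, hg, map_add]
    ring
  | monomial n c =>
    rw [X_mul_monomial, D_mon, D_mon, C_mul_monomial, X_mul_monomial, C_mul_monomial]
    rcases n with _ | n
    · simp
    · simp only [Nat.add_sub_cancel]
      rw [← map_add (monomial (n + 1))]
      congr 1
      ring

theorem pearson (f : R[X]) : L a q (X * f) = (1 + a) * L a q f - a * L a q (D q f) := by
  induction f using Polynomial.induction_on' with
  | add f g hf hg =>
    rw [mul_add, map_add, hf, hg, map_add, map_add, map_add]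
    ring
  | monomial n c =>
    rw [X_mul_monomial, D_mon, L_mon, L_mon, L_mon]
    rcases n with _ | n
    · rw [G_one, G_zero]; simp; ring
    · rw [G_rec]
      simp only [Nat.add_sub_cancel]
      ring

/-- the monic Al-Salam–Carlitz polynomials -/
noncomputable def U : ℕ → R[X]
  | 0 => 1
  | 1 => X - C (1 + a)
  | n + 2 => X * U (n + 1) - C ((1 + a) * q ^ (n + 1)) * U (n + 1) +
      C (a * q ^ n * (1 - q ^ (n + 1))) * U n

theorem D_C_mul (c : R) (f : R[X]) : D q (C c * f) = C c * D q f := by
  rw [← smul_eq_C_mul, ← smul_eq_C_mul, map_smul]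

theorem D_one : D q 1 = 0 := by
  have : (1 : R[X]) = monomial 0 1 := by simp
  rw [this, D_mon]
  simp

theorem D_X : D q X = C (1 - q) := by
  have h := D_X_mul q (1 : R[X])
  rw [mul_one, mul_one, D_one, mul_zero, mul_zero, add_zero] at h
  exact h

theorem D_C (c : R) : D q (C c) = 0 := by
  have := D_C_mul q c 1
  rw [mul_one, D_one, mul_zero] at this
  exact this

/-- The `q`-derivative lowers the Al-Salam–Carlitz polynomials. -/
theorem D_U : ∀ n, D q (U a q (n + 1)) = C (1 - q ^ (n + 1)) * U a q n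
  | 0 => by
    show D q (X - C (1 + a)) = C (1 - q ^ (0 + 1)) * 1
    rw [map_sub, D_X, D_C]
    simp
  | 1 => by
    show D q (X * U a q 1 - C ((1 + a) * q ^ (0 + 1)) * U a q 1 +
      C (a * q ^ 0 * (1 - q ^ (0 + 1))) * U a q 0) = C (1 - q ^ (1 + 1)) * U a q 1
    have h1 : D q (U a q 1) = C (1 - q ^ (0 + 1)) * U a q 0 := D_U 0
    have h0 : D q (U a q 0) = 0 := D_one q
    rw [map_add, map_sub, D_X_mul, D_C_mul, D_C_mul, h1, h0]
    have h2 : U a q 1 = X - C (1 + a) := rfl
    have h3 : U a q 0 = 1 := rfl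
    rw [h2, h3]
    simp only [map_add, map_sub, map_mul, map_pow, map_one]
    ring
  | n + 2 => by
    have hU : U a q (n + 2 + 1) = X * U a q (n + 2) - C ((1 + a) * q ^ (n + 2)) * U a q (n + 2) +
      C (a * q ^ (n + 1) * (1 - q ^ (n + 2))) * U a q (n + 1) := rfl
    have hV : U a q (n + 2) = X * U a q (n + 1) - C ((1 + a) * q ^ (n + 1)) * U a q (n + 1) +
      C (a * q ^ n * (1 - q ^ (n + 1))) * U a q n := rfl
    have h1 : D q (U a q (n + 2)) = C (1 - q ^ (n + 2)) * U a q (n + 1) := D_U (n + 1)
    have h2 : D q (U a q (n + 1)) = C (1 - q ^ (n + 1)) * U a q n := D_U n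
    rw [hU, map_add, map_sub, D_X_mul, D_C_mul, D_C_mul, h1, h2]
    simp only [map_add, map_sub, map_mul, map_pow, map_one] at hV ⊢
    have e1 : C q ^ (n + 2) = C q * C q ^ (n + 1) := by ring
    linear_combination (-(C q * (1 - C q ^ (n + 2)))) * hV

/-- The raising relation. -/
theorem L_U : ∀ n, ∀ f : R[X], L a q (U a q (n + 1) * f) = - (a * q ^ n) * L a q (U a q n * D q f)
  | 0 => by
    intro f
    have h1 : U a q (0 + 1) * f = X * f - C (1 + a) * f := by
      show (X - C (1 + a)) * f = _
      ring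
    have h2 : U a q 0 * D q f = D q f := by
      show 1 * D q f = _
      ring
    rw [h1, h2, map_sub, pearson, ← smul_eq_C_mul, map_smul, smul_eq_mul]
    ring
  | 1 => by
    intro f
    have h1 : U a q (1 + 1) * f = U a q 1 * (X * f) - C ((1 + a) * q) * (U a q 1 * f) +
        C (a * (1 - q)) * f := by
      have : U a q (1 + 1) = X * U a q 1 - C ((1 + a) * q ^ (0 + 1)) * U a q 1 +
        C (a * q ^ 0 * (1 - q ^ (0 + 1))) * U a q 0 := rfl
      rw [this]
      have h3 : U a q 0 = 1 := rfl
      rw [h3, zero_add, pow_one, pow_zero, mul_one]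
      ring_nf
    have h2 : U a q 1 * D q f = X * D q f - C (1 + a) * D q f := by
      show (X - C (1 + a)) * D q f = _
      ring
    have hu0 : U a q 0 = 1 := rfl
    have i1 := L_U 0 (X * f)
    have i2 := L_U 0 f
    rw [hu0, one_mul, D_X_mul, map_add, ← smul_eq_C_mul, ← smul_eq_C_mul, map_smul, map_smul,
      smul_eq_mul, smul_eq_mul, zero_add, pow_zero, mul_one] at i1
    rw [hu0, one_mul, zero_add, pow_zero, mul_one] at i2
    rw [h1, h2, map_add, map_sub, map_sub, ← smul_eq_C_mul, ← smul_eq_C_mul, ← smul_eq_C_mul,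
      map_smul, map_smul, map_smul, smul_eq_mul, smul_eq_mul, smul_eq_mul, i1, i2]
    ring
  | n + 2 => by
    intro f
    have hU : U a q (n + 2 + 1) * f = U a q (n + 2) * (X * f) -
        C ((1 + a) * q ^ (n + 2)) * (U a q (n + 2) * f) +
        C (a * q ^ (n + 1) * (1 - q ^ (n + 2))) * (U a q (n + 1) * f) := by
      have : U a q (n + 2 + 1) = X * U a q (n + 2) - C ((1 + a) * q ^ (n + 2)) * U a q (n + 2) +
        C (a * q ^ (n + 1) * (1 - q ^ (n + 2))) * U a q (n + 1) := rfl
      rw [this]
      ring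
    have hV : U a q (n + 2) * D q f = U a q (n + 1) * (X * D q f) -
        C ((1 + a) * q ^ (n + 1)) * (U a q (n + 1) * D q f) +
        C (a * q ^ n * (1 - q ^ (n + 1))) * (U a q n * D q f) := by
      have : U a q (n + 2) = X * U a q (n + 1) - C ((1 + a) * q ^ (n + 1)) * U a q (n + 1) +
        C (a * q ^ n * (1 - q ^ (n + 1))) * U a q n := rfl
      rw [this]
      ring
    have i1 : L a q (U a q (n + 2) * (X * f)) = - (a * q ^ (n + 1)) *
        L a q (U a q (n + 1) * D q (X * f)) := L_U (n + 1) (X * f)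
    have i2 : L a q (U a q (n + 2) * f) = - (a * q ^ (n + 1)) *
        L a q (U a q (n + 1) * D q f) := L_U (n + 1) f
    have i3 : L a q (U a q (n + 1) * f) = - (a * q ^ n) * L a q (U a q n * D q f) := L_U n f
    have i4 : U a q (n + 1) * D q (X * f) = C (1 - q) * (U a q (n + 1) * f) +
        C q * (U a q (n + 1) * (X * D q f)) := by
      rw [D_X_mul]; ring
    rw [i4, map_add, ← smul_eq_C_mul, ← smul_eq_C_mul, map_smul, map_smul, smul_eq_mul,
      smul_eq_mul] at i1
    rw [hU, hV]
    simp only [← smul_eq_C_mul, map_add, map_sub, map_smul, smul_eq_mul]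
    rw [i1, i2, i3]
    ring

/-- the squared norms -/
def hn : ℕ → R
  | 0 => 1
  | n + 1 => - (a * q ^ n) * (1 - q ^ (n + 1)) * hn n

theorem L_one : L a q 1 = 1 := by
  have : (1 : R[X]) = monomial 0 1 := by simp
  rw [this, L_mon, G_zero, one_mul]

theorem L_U_zero (n : ℕ) : L a q (U a q (n + 1) * U a q 0) = 0 := by
  rw [L_U]
  have h0 : U a q 0 = 1 := rfl
  rw [h0, D_one, mul_zero, map_zero, mul_zero]

theorem L_U_succ (m n : ℕ) : L a q (U a q (m + 1) * U a q (n + 1)) =
    - (a * q ^ m) * (1 - q ^ (n + 1)) * L a q (U a q m * U a q n) := by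
  rw [L_U, D_U]
  have : U a q m * (C (1 - q ^ (n + 1)) * U a q n) =
    C (1 - q ^ (n + 1)) * (U a q m * U a q n) := by ring
  rw [this, ← smul_eq_C_mul, map_smul, smul_eq_mul]
  ring

theorem L_orth : ∀ m n, L a q (U a q m * U a q n) = if m = n then hn a q n else 0
  | 0, 0 => by
    have h0 : U a q 0 = 1 := rfl
    rw [h0, mul_one, L_one, if_pos rfl]
    rfl
  | m + 1, 0 => by rw [L_U_zero, if_neg (by omega)]
  | 0, n + 1 => by rw [mul_comm, L_U_zero, if_neg (by omega)]
  | m + 1, n + 1 => by
    rw [L_U_succ, L_orth m n]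
    by_cases h : m = n
    · subst h
      rw [if_pos rfl, if_pos rfl]
      rfl
    · rw [if_neg h, if_neg (by omega), mul_zero]

theorem X_mul_U (n : ℕ) : X * U a q (n + 1) = U a q (n + 2) +
    C ((1 + a) * q ^ (n + 1)) * U a q (n + 1) - C (a * q ^ n * (1 - q ^ (n + 1))) * U a q n := by
  have : U a q (n + 2) = X * U a q (n + 1) - C ((1 + a) * q ^ (n + 1)) * U a q (n + 1) +
      C (a * q ^ n * (1 - q ^ (n + 1))) * U a q n := rfl
  rw [this]
  ring

theorem X_mul_U_zero : X * U a q 0 = U a q 1 + C (1 + a) * U a q 0 := by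
  show X * 1 = X - C (1 + a) + C (1 + a) * 1
  ring

/-- the three diagonals of the multiplication by `X` -/
theorem L_X_U (m n : ℕ) : L a q (X * (U a q m * U a q n)) =
    if n = m then (1 + a) * q ^ m * hn a q m else if n = m + 1 then hn a q n
      else if m = n + 1 then hn a q m else 0 := by
  rcases m with _ | m
  · have h1 : X * (U a q 0 * U a q n) = U a q 1 * U a q n + C (1 + a) * (U a q 0 * U a q n) := by
      rw [← mul_assoc, X_mul_U_zero]; ring
    rw [h1, map_add, ← smul_eq_C_mul, map_smul, L_orth, L_orth, smul_eq_mul]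
    rcases n with _ | _ | n
    · simp [hn]
    · simp [hn]
    · simp
  · have h1 : X * (U a q (m + 1) * U a q n) = U a q (m + 2) * U a q n +
        C ((1 + a) * q ^ (m + 1)) * (U a q (m + 1) * U a q n) -
        C (a * q ^ m * (1 - q ^ (m + 1))) * (U a q m * U a q n) := by
      rw [← mul_assoc, X_mul_U]; ring
    rw [h1, map_sub, map_add, ← smul_eq_C_mul, ← smul_eq_C_mul, map_smul, map_smul, L_orth,
      L_orth, L_orth, smul_eq_mul, smul_eq_mul]
    by_cases c1 : n = m + 1
    · subst c1
      simp
    · by_cases c2 : n = m + 2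
      · subst c2
        simp
      · by_cases c3 : n = m
        · subst c3
          have : hn a q (n + 1) = - (a * q ^ n) * (1 - q ^ (n + 1)) * hn a q n := rfl
          rw [if_neg (by omega), if_neg (by omega), if_pos rfl, if_neg (by omega),
            if_neg (by omega), if_pos rfl, this]
          ring
        · rw [if_neg (by omega), if_neg (by omega), if_neg (by omega), if_neg c1,
            if_neg (by omega), if_neg (by omega)]
          ring

end ring

end Pool.Agent.U147.ASC
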