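import Mathlib
import Pool.Agent.U147.ASC.Pf
import Pool.Agent.U147.ASC.U
import Pool.Agent.U147.ASC.Elim

set_option autoImplicit false

/-!
# The Pfaffians
-/

namespace Pool.Agent.U147.ASC

open Polynomial Matrix Equiv Finset

/-- the sum over permutations in the definition of the Pfaffian of a `2 n × 2 n` matrix -/
def pfS {R : Type*} [CommRing R] {n : ℕ} (A : Matrix (Fin (2 * n)) (Fin (2 * n)) R) : R :=
  ∑ σ : Perm (Fin (2 * n)), ((Perm.sign σ : ℤ) : R) * ∏ k : Fin n,
    A (σ ⟨2 * k, by omega⟩) (σ ⟨2 * k + 1, by omega⟩)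

/-- numbering of the pairs -/
def ee (n : ℕ) : Fin n × Fin 2 ≃ Fin (2 * n) :=
  (finProdFinEquiv (m := n) (n := 2)).trans (finCongr (mul_comm n 2))

theorem ee_val (n : ℕ) (k : Fin n) (b : Fin 2) : (ee n (k, b) : ℕ) = 2 * k + b := by
  simp [ee, finProdFinEquiv]
  ring

theorem pfS_eq {R : Type*} [CommRing R] {n : ℕ} (A : Matrix (Fin (2 * n)) (Fin (2 * n)) R) :
    pfS A = pfSum (A.submatrix (ee n) (ee n)) := by
  unfold pfS pfSum
  rw [← Equiv.sum_comp (ee n).permCongr]
  refine Finset.sum_congr rfl fun σ _ => ?_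
  rw [Equiv.Perm.sign_permCongr]
  congr 1
  refine Finset.prod_congr rfl fun k _ => ?_
  have h0 : (⟨2 * k, by omega⟩ : Fin (2 * n)) = ee n (k, 0) := by
    apply Fin.ext
    rw [ee_val]
    simp
  have h1 : (⟨2 * k + 1, by omega⟩ : Fin (2 * n)) = ee n (k, 1) := by
    apply Fin.ext
    rw [ee_val]
    simp
  rw [h0, h1]
  simp [Equiv.permCongr_apply]

section field

variable {K : Type*} [Field K]

/-- monic of degree `i` -/
def Mon (f : K[X]) (i : ℕ) : Prop := f.coeff i = 1 ∧ ∀ j, i < j → f.coeff j = 0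

theorem Mon_vv (u : ℕ → K[X]) (α β d : ℕ → K) (hu : ∀ i, Mon (u i) i) :
    ∀ k, Mon (vv u α β d k).1 (2 * k) ∧ Mon (vv u α β d k).2 (2 * k + 1)
  | 0 => ⟨hu 0, hu 1⟩
  | k + 1 => by
    obtain ⟨⟨a1, a2⟩, ⟨b1, b2⟩⟩ := Mon_vv u α β d hu k
    have e1 : 2 * (k + 1) = 2 * k + 2 := by ring
    rw [e1]
    refine ⟨⟨?_, fun j hj => ?_⟩, ⟨?_, fun j hj => ?_⟩⟩
    · simp only [vv, coeff_add, coeff_sub, coeff_smul]
      rw [(hu _).1, a2 _ (by omega), b2 _ (by omega)]
      simp
    · simp only [vv, coeff_add, coeff_sub, coeff_smul]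
      rw [(hu _).2 _ hj, a2 _ (by omega), b2 _ (by omega)]
      simp
    · simp only [vv, coeff_add, coeff_smul]
      rw [(hu (2 * k + 3)).1, a2 _ (by omega)]
      simp
    · simp only [vv, coeff_add, coeff_smul]
      rw [(hu (2 * k + 3)).2 _ (by omega), a2 _ (by omega)]
      simp

/-- the new basis as a sequence -/
noncomputable def WW (u : ℕ → K[X]) (α β d : ℕ → K) (i : ℕ) : K[X] :=
  if i % 2 = 0 then (vv u α β d (i / 2)).1 else (vv u α β d (i / 2)).2

theorem Mon_WW (u : ℕ → K[X]) (α β d : ℕ → K) (hu : ∀ i, Mon (u i) i) (i : ℕ) :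
    Mon (WW u α β d i) i := by
  unfold WW
  obtain ⟨h1, h2⟩ := Mon_vv u α β d hu (i / 2)
  split_ifs with h
  · have : 2 * (i / 2) = i := by omega
    rw [this] at h1
    exact h1
  · have : 2 * (i / 2) + 1 = i := by omega
    rw [this] at h2
    exact h2

theorem Mon_sum {f : K[X]} {i N : ℕ} (h : Mon f i) (hi : i < N) :
    f = ∑ l : Fin N, f.coeff l • (X : K[X]) ^ (l : ℕ) := by
  have h1 : f.natDegree < N := by
    have : f.natDegree ≤ i := Polynomial.natDegree_le_iff_coeff_eq_zero.2 h.2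
    omega
  conv_lhs => rw [Polynomial.as_sum_range' f N h1]
  rw [← Fin.sum_univ_eq_sum_range (fun l => monomial l (f.coeff l)) N]
  refine Finset.sum_congr rfl fun l _ => ?_
  rw [smul_X_eq_monomial]

theorem main_general (ω : K[X] →ₗ[K] K[X] →ₗ[K] K) (u : ℕ → K[X]) (α β d : ℕ → K)
    (hu : ∀ i, Mon (u i) i)
    (hs : ∀ x y, ω x y = - ω y x) (h0 : ∀ x, ω x x = 0)
    (h1 : ∀ i, ω (u i) (u (i + 1)) = α i) (h2 : ∀ i, ω (u i) (u (i + 2)) = β i)
    (h3 : ∀ i j, i + 3 ≤ j → ω (u i) (u j) = 0) (hd0 : d 0 = α 0)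
    (hd : ∀ k, d (k + 1) = α (2 * k + 2) - β (2 * k) * β (2 * k + 1) / d k)
    (hne : ∀ k, d k ≠ 0) (n : ℕ) (A : Matrix (Fin (2 * n)) (Fin (2 * n)) K)
    (hA : ∀ i j, A i j = ω (X ^ (i : ℕ)) (X ^ (j : ℕ))) :
    pfS A = (n.factorial * 2 ^ n : ℕ) * ∏ k ∈ range n, d k := by
  classical
  set B : Matrix (Fin (2 * n)) (Fin (2 * n)) K :=
    Matrix.of fun i j => (WW u α β d i).coeff j with hB
  have hdet : B.det = 1 := by
    rw [Matrix.det_of_lowerTriangular]
    · apply Finset.prod_eq_one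
      intro i _
      exact (Mon_WW u α β d hu i).1
    · intro i j hij
      have hij' : (i : ℕ) < j := by simpa using hij
      exact (Mon_WW u α β d hu i).2 j hij'
  have hgram : ∀ i j, (B * A * Bᵀ) i j = ω (WW u α β d i) (WW u α β d j) := by
    intro i j
    have e1 := Mon_sum (Mon_WW u α β d hu i) i.2
    have e2 := Mon_sum (Mon_WW u α β d hu j) j.2
    have e4 : ω (WW u α β d i) (WW u α β d j) = ∑ l' : Fin (2 * n), ∑ l : Fin (2 * n),
        B i l' * A l' l * B j l := by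
      conv_lhs => rw [e1, e2]
      rw [map_sum, Finset.sum_comm]
      refine Finset.sum_congr rfl fun l _ => ?_
      rw [map_sum, LinearMap.sum_apply]
      refine Finset.sum_congr rfl fun l' _ => ?_
      rw [map_smul, map_smul, LinearMap.smul_apply, smul_eq_mul, smul_eq_mul, hA, hB,
        Matrix.of_apply, Matrix.of_apply]
      ring
    have e3 : ∀ l : Fin (2 * n), (B * A) i l * Bᵀ l j = ∑ l', B i l' * A l' l * B j l := by
      intro l
      rw [Matrix.mul_apply, Finset.sum_mul]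
      rfl
    rw [e4, Matrix.mul_apply, Finset.sum_congr rfl fun l _ => e3 l, Finset.sum_comm]
  have hW : ∀ (k : Fin n) (b : Fin 2), WW u α β d (ee n (k, b)) =
      if b = 0 then (vv u α β d k).1 else (vv u α β d k).2 := by
    intro k b
    rw [ee_val]
    unfold WW
    fin_cases b
    · have e1 : (2 * (k : ℕ) + ((0 : Fin 2) : ℕ)) % 2 = 0 := by simp
      have e2 : (2 * (k : ℕ) + ((0 : Fin 2) : ℕ)) / 2 = k := by simp
      simp
    · have e1 : (2 * (k : ℕ) + 1) % 2 = 1 := by omega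
      have e2 : (2 * (k : ℕ) + 1) / 2 = k := by omega
      simp [e2]
  have hcd := vv_cd ω u α β d hs h0 h1 h2 h3 hd0 hd hne
  have hblock : ∀ (i j : Fin n) (b c : Fin 2),
      ((B * A * Bᵀ).submatrix (ee n) (ee n)) (i, b) (j, c) =
        if i = j then (fun k : Fin n => d k) i * (jj b c : K) else 0 := by
    intro i j b c
    rw [Matrix.submatrix_apply, hgram, hW, hW]
    rcases lt_trichotomy i j with hij | hij | hij
    · rw [if_neg hij.ne]
      obtain ⟨j1, j2, j3, j4⟩ := (hcd j).2 i hij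
      fin_cases b <;> fin_cases c <;> simp [j1, j2, j3, j4]
    · subst hij
      rw [if_pos rfl]
      have hc := (hcd i).1
      fin_cases b <;> fin_cases c
      · simp [h0, jj]
      · simp [hc, jj]
      · simp only [jj]
        simp
        rw [hs, hc]
      · simp [h0, jj]
    · rw [if_neg hij.ne']
      obtain ⟨j1, j2, j3, j4⟩ := (hcd i).2 j hij
      rw [hs]
      fin_cases b <;> fin_cases c <;> simp [j1, j2, j3, j4]
  have hsub : (B * A * Bᵀ).submatrix (ee n) (ee n) = (B.submatrix (ee n) (ee n)) *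
      (A.submatrix (ee n) (ee n)) * (B.submatrix (ee n) (ee n))ᵀ := by
    rw [Matrix.transpose_submatrix, Matrix.submatrix_mul_equiv, Matrix.submatrix_mul_equiv]
  have h5 := pfSum_block (fun k : Fin n => d k) _ hblock
  rw [hsub, pfSum_congr, Matrix.det_submatrix_equiv_self, hdet, one_mul] at h5
  rw [pfS_eq, h5, ← Fin.prod_univ_eq_prod_range d n]

end field

section forms

variable {K : Type*} [Field K] (a q : K)

/-- the first skew form -/
noncomputable def om1 : K[X] →ₗ[K] K[X] →ₗ[K] K :=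
  LinearMap.mk₂ K (fun f g => L a q (f * D q g - g * D q f))
    (fun f f' g => by rw [← map_add]; congr 1; rw [map_add]; ring)
    (fun c f g => by
      rw [← map_smul]; congr 1; rw [map_smul]
      simp only [smul_eq_C_mul]; ring)
    (fun f g g' => by rw [← map_add]; congr 1; rw [map_add]; ring)
    (fun c f g => by
      rw [← map_smul]; congr 1; rw [map_smul]
      simp only [smul_eq_C_mul]; ring)

/-- the second skew form -/
noncomputable def om2 : K[X] →ₗ[K] K[X] →ₗ[K] K :=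
  LinearMap.mk₂ K (fun f g => L a q (X * (f * D q g - g * D q f)))
    (fun f f' g => by rw [← map_add]; congr 1; rw [map_add]; ring)
    (fun c f g => by
      rw [← map_smul]; congr 1; rw [map_smul]
      simp only [smul_eq_C_mul]; ring)
    (fun f g g' => by rw [← map_add]; congr 1; rw [map_add]; ring)
    (fun c f g => by
      rw [← map_smul]; congr 1; rw [map_smul]
      simp only [smul_eq_C_mul]; ring)

theorem om1_apply (f g : K[X]) : om1 a q f g = L a q (f * D q g - g * D q f) := rfl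

theorem om2_apply (f g : K[X]) : om2 a q f g = L a q (X * (f * D q g - g * D q f)) := rfl

theorem L_X_pow_D (i j : ℕ) : L a q ((X : K[X]) ^ i * D q (X ^ j)) =
    (1 - q ^ j) * G a q (i + j - 1) := by
  rw [← monomial_one_right_eq_X_pow, ← monomial_one_right_eq_X_pow, D_mon, monomial_mul_monomial,
    L_mon, one_mul, mul_one]
  rcases j with _ | j
  · simp
  · rfl

theorem L_X_X_pow_D (i j : ℕ) : L a q (X * ((X : K[X]) ^ i * D q (X ^ j))) =
    (1 - q ^ j) * G a q (i + j) := by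
  rw [← mul_assoc, ← pow_succ', L_X_pow_D]
  congr 2
  omega

theorem om1_X (i j : ℕ) : om1 a q (X ^ i) (X ^ j) = (q ^ i - q ^ j) * G a q (i + j - 1) := by
  rw [om1_apply, map_sub, L_X_pow_D, L_X_pow_D, add_comm j i]
  ring

theorem om2_X (i j : ℕ) : om2 a q (X ^ i) (X ^ j) = (q ^ i - q ^ j) * G a q (i + j) := by
  rw [om2_apply, mul_sub, map_sub, L_X_X_pow_D, L_X_X_pow_D, add_comm j i]
  ring

theorem om1_U {m n : ℕ} (h : m ≤ n) : om1 a q (U a q m) (U a q (n + 1)) =
    if n = m then (1 - q ^ (m + 1)) * hn a q m else 0 := by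
  have h1 : om1 a q (U a q m) (U a q (n + 1)) = (1 - q ^ (n + 1)) * L a q (U a q m * U a q n) -
      L a q (U a q (n + 1) * D q (U a q m)) := by
    rw [om1_apply, map_sub, D_U]
    have : U a q m * (C (1 - q ^ (n + 1)) * U a q n) =
      C (1 - q ^ (n + 1)) * (U a q m * U a q n) := by ring
    rw [this, ← smul_eq_C_mul, map_smul, smul_eq_mul]
  have h2 : L a q (U a q (n + 1) * D q (U a q m)) = 0 := by
    rcases m with _ | m
    · have h0 : U a q 0 = 1 := rfl
      rw [h0, D_one, mul_zero, map_zero]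
    · rw [D_U]
      have : U a q (n + 1) * (C (1 - q ^ (m + 1)) * U a q m) =
        C (1 - q ^ (m + 1)) * (U a q (n + 1) * U a q m) := by ring
      rw [this, ← smul_eq_C_mul, map_smul, smul_eq_mul, L_orth, if_neg (by omega), mul_zero]
  rw [h1, h2, L_orth]
  by_cases h3 : n = m
  · subst h3; simp
  · rw [if_neg h3, if_neg (fun h => h3 h.symm)]; ring

theorem om2_U {m n : ℕ} (h : m ≤ n) : om2 a q (U a q m) (U a q (n + 1)) =
    if n = m then (1 - q ^ (m + 1)) * ((1 + a) * q ^ m * hn a q m) else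
      if n = m + 1 then (1 - q ^ (m + 2)) * hn a q (m + 1) else 0 := by
  have h1 : om2 a q (U a q m) (U a q (n + 1)) =
      (1 - q ^ (n + 1)) * L a q (X * (U a q m * U a q n)) -
      L a q (X * (U a q (n + 1) * D q (U a q m))) := by
    rw [om2_apply, mul_sub, map_sub, D_U]
    have : X * (U a q m * (C (1 - q ^ (n + 1)) * U a q n)) =
      C (1 - q ^ (n + 1)) * (X * (U a q m * U a q n)) := by ring
    rw [this, ← smul_eq_C_mul, map_smul, smul_eq_mul]
  have h2 : L a q (X * (U a q (n + 1) * D q (U a q m))) = 0 := by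
    rcases m with _ | m
    · have h0 : U a q 0 = 1 := rfl
      rw [h0, D_one, mul_zero, mul_zero, map_zero]
    · rw [D_U]
      have : X * (U a q (n + 1) * (C (1 - q ^ (m + 1)) * U a q m)) =
        C (1 - q ^ (m + 1)) * (X * (U a q (n + 1) * U a q m)) := by ring
      rw [this, ← smul_eq_C_mul, map_smul, smul_eq_mul, L_X_U, if_neg (by omega),
        if_neg (by omega), if_neg (by omega), mul_zero]
  rw [h1, h2, L_X_U]
  by_cases h3 : n = m
  · subst h3; simp
  · by_cases h4 : n = m + 1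
    · subst h4
      rw [if_neg h3, if_pos rfl, if_neg h3, if_pos rfl]
      ring
    · rw [if_neg h3, if_neg h4, if_neg (by omega), if_neg h3, if_neg h4]
      ring

theorem Mon_U : ∀ n, Mon (U a q n) n
  | 0 => by
    refine ⟨?_, fun j hj => ?_⟩
    · show (1 : K[X]).coeff 0 = 1
      simp
    · show (1 : K[X]).coeff j = 0
      rw [coeff_one, if_neg (by omega)]
  | 1 => by
    refine ⟨?_, fun j hj => ?_⟩
    · show (X - C (1 + a) : K[X]).coeff 1 = 1
      rw [coeff_sub, coeff_X_one, coeff_C, if_neg (by omega), sub_zero]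
    · show (X - C (1 + a) : K[X]).coeff j = 0
      rw [coeff_sub, coeff_X, if_neg (by omega), coeff_C, if_neg (by omega), sub_zero]
  | n + 2 => by
    obtain ⟨a1, a2⟩ := Mon_U (n + 1)
    obtain ⟨b1, b2⟩ := Mon_U n
    have hV : U a q (n + 2) = X * U a q (n + 1) - C ((1 + a) * q ^ (n + 1)) * U a q (n + 1) +
      C (a * q ^ n * (1 - q ^ (n + 1))) * U a q n := rfl
    rw [hV]
    refine ⟨?_, fun j hj => ?_⟩
    · rw [coeff_add, coeff_sub, coeff_X_mul, coeff_C_mul, coeff_C_mul, a1, a2 _ (by omega),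
        b2 _ (by omega)]
      simp
    · obtain ⟨j, rfl⟩ : ∃ i, j = i + 1 := ⟨j - 1, by omega⟩
      rw [coeff_add, coeff_sub, coeff_X_mul, coeff_C_mul, coeff_C_mul, a2 _ (by omega),
        a2 _ (by omega), b2 _ (by omega)]
      simp

theorem pf_one (hq : ∀ k : ℕ, 1 - q ^ (k + 1) ≠ 0) (hq0 : q ≠ 0) (ha : a ≠ 0) (n : ℕ)
    (A : Matrix (Fin (2 * n)) (Fin (2 * n)) K)
    (hA : ∀ i j, A i j = (q ^ (i : ℕ) - q ^ (j : ℕ)) * G a q (i + j - 1)) :
    pfS A = (n.factorial * 2 ^ n : ℕ) *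
      ∏ k ∈ range n, ((1 - q ^ (2 * k + 1)) * hn a q (2 * k)) := by
  have hhn : ∀ k, hn a q k ≠ 0 := by
    intro k
    induction k with
    | zero => exact one_ne_zero
    | succ k ih =>
      show - (a * q ^ k) * (1 - q ^ (k + 1)) * hn a q k ≠ 0
      exact mul_ne_zero (mul_ne_zero (neg_ne_zero.2 (mul_ne_zero ha (pow_ne_zero _ hq0)))
        (hq k)) ih
  refine main_general (om1 a q) (U a q) (fun i => (1 - q ^ (i + 1)) * hn a q i) (fun _ => 0)
    (fun k => (1 - q ^ (2 * k + 1)) * hn a q (2 * k)) (Mon_U a q) ?_ ?_ ?_ ?_ ?_ rfl ?_ ?_ n A ?_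
  · intro x y
    rw [om1_apply, om1_apply, ← map_neg]
    congr 1
    ring
  · intro x
    rw [om1_apply, sub_self, map_zero]
  · intro i
    rw [om1_U a q le_rfl, if_pos rfl]
  · intro i
    rw [om1_U a q (Nat.le_succ i), if_neg (by omega)]
  · intro i j hij
    obtain ⟨j, rfl⟩ : ∃ l, j = l + 1 := ⟨j - 1, by omega⟩
    rw [om1_U a q (by omega), if_neg (by omega)]
  · intro k
    simp only [mul_zero, zero_div, sub_zero]
    rfl
  · intro k
    exact mul_ne_zero (hq _) (hhn _)
  · intro i j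
    rw [hA, om1_X]

theorem pf_two (hq : ∀ k : ℕ, 1 - q ^ (k + 1) ≠ 0) (hq0 : q ≠ 0) (ha : a ≠ 0)
    (hf : ∀ k, fr a (q ^ 2) k ≠ 0) (n : ℕ)
    (A : Matrix (Fin (2 * n)) (Fin (2 * n)) K)
    (hA : ∀ i j, A i j = (q ^ (i : ℕ) - q ^ (j : ℕ)) * G a q (i + j)) :
    pfS A = (n.factorial * 2 ^ n : ℕ) *
      ((∏ k ∈ range n, ((1 - q ^ (2 * k + 1)) * hn a q (2 * k))) * fr a (q ^ 2) n) := by
  have hhn : ∀ k, hn a q k ≠ 0 := by
    intro k
    induction k with
    | zero => exact one_ne_zero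
    | succ k ih =>
      show - (a * q ^ k) * (1 - q ^ (k + 1)) * hn a q k ≠ 0
      exact mul_ne_zero (mul_ne_zero (neg_ne_zero.2 (mul_ne_zero ha (pow_ne_zero _ hq0)))
        (hq k)) ih
  have key := main_general (om2 a q) (U a q)
    (fun i => (1 - q ^ (i + 1)) * ((1 + a) * q ^ i * hn a q i))
    (fun i => (1 - q ^ (i + 2)) * hn a q (i + 1))
    (fun k => (1 - q ^ (2 * k + 1)) * hn a q (2 * k) * fr a (q ^ 2) (k + 1) / fr a (q ^ 2) k)
    (Mon_U a q) ?_ ?_ ?_ ?_ ?_ ?_ ?_ ?_ n A ?_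
  · rw [key]
    congr 1
    clear key hA A
    induction n with
    | zero => simp [fr]
    | succ n ih =>
      rw [prod_range_succ, ih, prod_range_succ]
      have := hf n
      field_simp
  · intro x y
    rw [om2_apply, om2_apply, ← map_neg]
    congr 1
    ring
  · intro x
    rw [om2_apply, sub_self, mul_zero, map_zero]
  · intro i
    rw [om2_U a q le_rfl, if_pos rfl]
  · intro i
    rw [om2_U a q (Nat.le_succ i), if_neg (by omega), if_pos rfl]
  · intro i j hij
    obtain ⟨j, rfl⟩ : ∃ l, j = l + 1 := ⟨j - 1, by omega⟩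
    rw [om2_U a q (by omega), if_neg (by omega), if_neg (by omega)]
  · simp [fr, hn]
  · intro k
    have f0 := hf k
    have f1 := hf (k + 1)
    have f2 : fr a (q ^ 2) (k + 2) = (1 + a) * (q ^ 2) ^ (k + 1) * fr a (q ^ 2) (k + 1) +
      a * (q ^ 2) ^ k * (1 - (q ^ 2) ^ (k + 1)) * fr a (q ^ 2) k := rfl
    have e1 : 2 * (k + 1) = 2 * k + 2 := by ring
    have h1 : hn a q (2 * k + 1) = - (a * q ^ (2 * k)) * (1 - q ^ (2 * k + 1)) * hn a q (2 * k) :=
      rfl
    have n0 := hhn (2 * k)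
    have q0 := hq (2 * k)
    simp only [e1]
    have e2 : k + 1 + 1 = k + 2 := rfl
    rw [e2, f2, h1]
    have e3 : 2 * k + 1 + 2 = 2 * k + 3 := rfl
    have e4 : 2 * k + 2 + 1 = 2 * k + 3 := rfl
    have e5 : 2 * k + 1 + 1 = 2 * k + 2 := rfl
    rw [e3, e4, e5]
    field_simp
    ring
  · intro k
    exact div_ne_zero (mul_ne_zero (mul_ne_zero (hq _) (hhn _)) (hf _)) (hf _)
  · intro i j
    rw [hA, om2_X]

end forms

end Pool.Agent.U147.ASC
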