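import Mathlib
import Pool.Agent.U147.ASC.Main

set_option autoImplicit false

/-!
# The Pfaffians in a polynomial ring, closed forms
-/

namespace Pool.Agent.U147.ASC

open Finset

section ring

variable {R : Type*} [CommRing R] (a q : R)

theorem e_succ (k : ℕ) : (k + 1) * (2 * (k + 1) - 1) = k * (2 * k - 1) + (4 * k + 1) := by
  rcases k with _ | k
  · rfl
  · have h1 : 2 * (k + 1 + 1) - 1 = 2 * k + 3 := by omega
    have h2 : 2 * (k + 1) - 1 = 2 * k + 1 := by omega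
    rw [h1, h2]
    ring

theorem hn_even (k : ℕ) : hn a q (2 * k) = a ^ (2 * k) * q ^ (k * (2 * k - 1)) *
    poch q (2 * k) := by
  induction k with
  | zero => simp [hn, poch_zero]
  | succ k ih =>
    have h1 : hn a q (2 * (k + 1)) = - (a * q ^ (2 * k + 1)) * (1 - q ^ (2 * k + 2)) *
      (- (a * q ^ (2 * k)) * (1 - q ^ (2 * k + 1)) * hn a q (2 * k)) := rfl
    have h2 : 2 * (k + 1) = 2 * k + 1 + 1 := by ring
    rw [h1, ih, e_succ, h2, poch_succ, poch_succ, pow_add q (k * (2 * k - 1))]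
    ring

theorem prod_closed (n : ℕ) : ∏ k ∈ range n, ((1 - q ^ (2 * k + 1)) * hn a q (2 * k)) =
    a ^ (n * (n - 1)) * q ^ (∑ k ∈ range n, k * (2 * k - 1)) *
      ∏ k ∈ range n, poch q (2 * k + 1) := by
  induction n with
  | zero => simp
  | succ n ih =>
    rw [prod_range_succ, ih, sum_range_succ, prod_range_succ, hn_even, poch_succ q (2 * n)]
    have h1 : (n + 1) * (n + 1 - 1) = n * (n - 1) + 2 * n := by
      rcases n with _ | n
      · rfl
      · simp only [Nat.add_sub_cancel]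
        ring
    rw [h1, pow_add q, pow_add a]
    ring

end ring

theorem six_S (n : ℕ) : 6 * ((∑ k ∈ range n, k * (2 * k - 1) : ℕ) : ℤ) =
    (n : ℤ) * (n - 1) * (4 * n - 5) := by
  induction n with
  | zero => simp
  | succ n ih =>
    rw [sum_range_succ]
    push_cast
    push_cast at ih
    rw [mul_add, ih]
    rcases n with _ | n
    · norm_num
    · have : ((2 * (n + 1) - 1 : ℕ) : ℤ) = 2 * n + 1 := by omega
      rw [this]
      push_cast
      ring

/-- the exponent `e(n)`; the division by `3` is exact -/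
def ex (n : ℕ) : ℤ :=
  (((n / 2 : ℕ) : ℤ) * (16 * ((n / 2 : ℕ) : ℤ) ^ 2 - 1)) / 3 - (-1) ^ n * (4 * ((n / 2 : ℕ) : ℤ) ^ 2)

theorem ex_key {n : ℕ} (hn : 1 ≤ n) : ((n / 2 : ℕ) : ℤ) * (16 * ((n / 2 : ℕ) : ℤ) ^ 2 - 1) =
    3 * (((∑ k ∈ range n, k * (2 * k - 1) : ℕ) : ℤ) + 2 * ((n / 2 : ℕ) : ℤ) *
      (((n - 1) / 2 : ℕ) : ℤ) + (-1) ^ n * (4 * ((n / 2 : ℕ) : ℤ) ^ 2)) := by
  have h6 := six_S n
  obtain ⟨m, hm⟩ := Nat.even_or_odd' n
  rcases hm with rfl | rfl
  · obtain ⟨l, rfl⟩ : ∃ l, m = l + 1 := ⟨m - 1, by omega⟩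
    have e1 : 2 * (l + 1) / 2 = l + 1 := by omega
    have e2 : (2 * (l + 1) - 1) / 2 = l := by omega
    rw [e1, e2]
    have e3 : ((-1 : ℤ)) ^ (2 * (l + 1)) = 1 := by rw [pow_mul]; norm_num
    rw [e3]
    push_cast at h6 ⊢
    nlinarith [h6]
  · have e1 : (2 * m + 1) / 2 = m := by omega
    have e2 : (2 * m + 1 - 1) / 2 = m := by omega
    rw [e1, e2]
    have e3 : ((-1 : ℤ)) ^ (2 * m + 1) = -1 := by rw [pow_succ, pow_mul]; norm_num
    rw [e3]
    push_cast at h6 ⊢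
    nlinarith [h6]

theorem ex_eq {n : ℕ} (hn : 1 ≤ n) : ex n = ((∑ k ∈ range n, k * (2 * k - 1) : ℕ) : ℤ) +
    2 * ((n / 2 : ℕ) : ℤ) * (((n - 1) / 2 : ℕ) : ℤ) := by
  unfold ex
  rw [ex_key hn, Int.mul_ediv_cancel_left _ (by norm_num)]
  ring

theorem ex_dvd {n : ℕ} (hn : 1 ≤ n) : (3 : ℤ) ∣ ((n / 2 : ℕ) : ℤ) *
    (16 * ((n / 2 : ℕ) : ℤ) ^ 2 - 1) := ⟨_, ex_key hn⟩

theorem two_ch (k : ℕ) : 2 * (k.choose 2 : ℤ) = k * (k - 1) := by
  induction k with
  | zero => simp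
  | succ k ih =>
    rw [ch_two]
    push_cast
    rw [mul_add, ih]
    ring

theorem ck_key {n k : ℕ} (hn : 1 ≤ n) (hk : k ≤ n) :
    2 * (n / 2) * ((n - 1) / 2) + ((((n : ℤ) - 2 * k) ^ 2) / 2).toNat =
      2 * (k.choose 2 + (n - k).choose 2) := by
  have h1 := two_ch k
  have h2 := two_ch (n - k)
  rw [Nat.cast_sub hk] at h2
  have key : (2 * ((n / 2 : ℕ) : ℤ) * (((n - 1) / 2 : ℕ) : ℤ) + (((n : ℤ) - 2 * k) ^ 2) / 2) =
      2 * (k.choose 2 + (n - k).choose 2) := by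
    have h3 : 2 * ((k.choose 2 : ℤ) + ((n - k).choose 2 : ℤ)) =
      (k : ℤ) * (k - 1) + ((n : ℤ) - k) * ((n : ℤ) - k - 1) := by linarith
    rw [h3]
    obtain ⟨m, hm⟩ := Nat.even_or_odd' n
    rcases hm with rfl | rfl
    · obtain ⟨l, rfl⟩ : ∃ l, m = l + 1 := ⟨m - 1, by omega⟩
      have e1 : 2 * (l + 1) / 2 = l + 1 := by omega
      have e2 : (2 * (l + 1) - 1) / 2 = l := by omega
      rw [e1, e2]
      have e3 : (((2 * (l + 1) : ℕ) : ℤ) - 2 * k) ^ 2 = 2 * (2 * ((l : ℤ) + 1 - k) ^ 2) := by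
        push_cast; ring
      rw [e3, Int.mul_ediv_cancel_left _ (by norm_num)]
      push_cast
      ring
    · have e1 : (2 * m + 1) / 2 = m := by omega
      have e2 : (2 * m + 1 - 1) / 2 = m := by omega
      rw [e1, e2]
      have e3 : (((2 * m + 1 : ℕ) : ℤ) - 2 * k) ^ 2 =
          2 * (2 * ((m : ℤ) - k) ^ 2 + 2 * ((m : ℤ) - k)) + 1 := by
        push_cast; ring
      have e4 : (2 * (2 * ((m : ℤ) - k) ^ 2 + 2 * ((m : ℤ) - k)) + 1) / 2 =
          2 * ((m : ℤ) - k) ^ 2 + 2 * ((m : ℤ) - k) := by omega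
      rw [e3, e4]
      push_cast
      ring
  have hpos : 0 ≤ (((n : ℤ) - 2 * k) ^ 2) / 2 := Int.ediv_nonneg (sq_nonneg _) (by norm_num)
  zify
  rw [Int.toNat_of_nonneg hpos]
  exact key

theorem fs_closed {R : Type*} [CommRing R] (a q : R) {n : ℕ} (hn : 1 ≤ n) :
    fs a (q ^ 2) n = q ^ (2 * (n / 2) * ((n - 1) / 2)) *
      ∑ k ∈ range (n + 1), q ^ ((((n : ℤ) - 2 * k) ^ 2) / 2).toNat * qb (q ^ 2) n k * a ^ k := by
  unfold fs
  rw [mul_sum]
  refine sum_congr rfl fun k hk => ?_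
  have hk' : k ≤ n := by simpa [Nat.lt_succ_iff] using hk
  have h := ck_key hn hk'
  rw [← pow_mul, ← h, pow_add]
  ring

section poly

open MvPolynomial

/-- the ring `ℚ[a, q]` -/
abbrev S := MvPolynomial (Fin 2) ℚ

/-- evaluation at `a = 1`, `q = 1 / 2` -/
noncomputable def ev : S →+* ℚ := MvPolynomial.eval (fun i => if i = 0 then 1 else 1 / 2)

theorem ev_a : ev (X 0) = 1 := by simp [ev]

theorem ev_q : ev (X 1) = 1 / 2 := by simp [ev]

theorem ne_zero_of_ev {P : S} (h : ev P ≠ 0) : P ≠ 0 := by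
  rintro rfl
  exact h (map_zero _)

theorem pfS_map {R T : Type*} [CommRing R] [CommRing T] (φ : R →+* T) {n : ℕ}
    (A : Matrix (Fin (2 * n)) (Fin (2 * n)) R) : φ (pfS A) = pfS (A.map φ) := by
  unfold pfS
  rw [map_sum]
  refine sum_congr rfl fun σ _ => ?_
  rw [map_mul, map_prod]
  simp [Matrix.map_apply]

theorem qb_map {R T : Type*} [CommRing R] [CommRing T] (φ : R →+* T) (x : R) :
    ∀ m k, φ (qb x m k) = qb (φ x) m k
  | m, 0 => by rw [qb_zero, qb_zero, map_one]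
  | 0, k + 1 => by rw [qb_zero_succ, qb_zero_succ, map_zero]
  | m + 1, k + 1 => by
    rw [qb_succ, qb_succ, map_add, map_mul, map_pow, qb_map φ x m k, qb_map φ x m (k + 1)]

theorem G_map {R T : Type*} [CommRing R] [CommRing T] (φ : R →+* T) (a q : R) (r : ℕ) :
    φ (G a q r) = G (φ a) (φ q) r := by
  unfold G
  rw [map_sum]
  exact sum_congr rfl fun j _ => by rw [map_mul, map_pow, qb_map]

theorem hn_map {R T : Type*} [CommRing R] [CommRing T] (φ : R →+* T) (a q : R) :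
    ∀ n, φ (hn a q n) = hn (φ a) (φ q) n
  | 0 => by simp [hn]
  | n + 1 => by simp [hn, hn_map φ a q n]

theorem q_ne (k : ℕ) : (1 - X 1 ^ (k + 1) : S) ≠ 0 := by
  apply ne_zero_of_ev
  rw [map_sub, map_one, map_pow, ev_q]
  have : (1 / 2 : ℚ) ^ (k + 1) < 1 := pow_lt_one₀ (by norm_num) (by norm_num) (by omega)
  linarith

theorem fr_ne (k : ℕ) : fr (X 0 : S) (X 1 ^ 2) k ≠ 0 := by
  apply ne_zero_of_ev
  rw [fr_map, map_pow, ev_q, ev_a]
  have h1 : (1 / 2 : ℚ) ^ 2 = 1 / 4 := by norm_num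
  rw [h1]
  exact (fr_pos k).ne'

theorem poly_one (n : ℕ) (A : Matrix (Fin (2 * n)) (Fin (2 * n)) S)
    (hA : ∀ i j, A i j = (X 1 ^ (i : ℕ) - X 1 ^ (j : ℕ)) * G (X 0) (X 1) (i + j - 1)) :
    pfS A = (n.factorial * 2 ^ n : ℕ) *
      ∏ k ∈ range n, ((1 - (X 1 : S) ^ (2 * k + 1)) * hn (X 0 : S) (X 1) (2 * k)) := by
  let φ : S →+* FractionRing S := algebraMap S (FractionRing S)
  have hφ : Function.Injective φ := IsFractionRing.injective S (FractionRing S)
  have hne : ∀ {P : S}, P ≠ 0 → φ P ≠ 0 := fun h h0 => h (hφ (by rw [h0, map_zero]))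
  apply hφ
  rw [pfS_map]
  have key := pf_one (φ (X 0)) (φ (X 1))
    (fun k => by
      have := hne (q_ne k)
      rwa [map_sub, map_one, map_pow] at this)
    (hne (X_ne_zero _)) (hne (X_ne_zero _)) n (A.map φ)
    (fun i j => by
      rw [Matrix.map_apply, hA, map_mul, map_sub, map_pow, map_pow, G_map])
  rw [key, map_mul, map_natCast, map_prod]
  congr 1
  refine prod_congr rfl fun k _ => ?_
  rw [map_mul, map_sub, map_one, map_pow, hn_map]

theorem poly_two (n : ℕ) (A : Matrix (Fin (2 * n)) (Fin (2 * n)) S)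
    (hA : ∀ i j, A i j = (X 1 ^ (i : ℕ) - X 1 ^ (j : ℕ)) * G (X 0) (X 1) (i + j)) :
    pfS A = (n.factorial * 2 ^ n : ℕ) *
      ((∏ k ∈ range n, ((1 - (X 1 : S) ^ (2 * k + 1)) * hn (X 0 : S) (X 1) (2 * k))) *
        fs (X 0 : S) (X 1 ^ 2) n) := by
  let φ : S →+* FractionRing S := algebraMap S (FractionRing S)
  have hφ : Function.Injective φ := IsFractionRing.injective S (FractionRing S)
  have hne : ∀ {P : S}, P ≠ 0 → φ P ≠ 0 := fun h h0 => h (hφ (by rw [h0, map_zero]))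
  rw [fs_eq_fr (X 0 : S) (pow_ne_zero 2 (X_ne_zero (R := ℚ) (1 : Fin 2)))]
  apply hφ
  rw [pfS_map]
  have key := pf_two (φ (X 0)) (φ (X 1))
    (fun k => by
      have := hne (q_ne k)
      rwa [map_sub, map_one, map_pow] at this)
    (hne (X_ne_zero _)) (hne (X_ne_zero _))
    (fun k => by
      have := hne (fr_ne k)
      rwa [fr_map, map_pow] at this) n (A.map φ)
    (fun i j => by
      rw [Matrix.map_apply, hA, map_mul, map_sub, map_pow, map_pow, G_map])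
  rw [key, map_mul, map_natCast, map_mul, map_prod, fr_map, map_pow]
  congr 2
  refine prod_congr rfl fun k _ => ?_
  rw [map_mul, map_sub, map_one, map_pow, hn_map]

end poly

end Pool.Agent.U147.ASC
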